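import Mathlib

/-! Project ZB (MP_c95b3b_ag), step (5.7): the box principle modulo a lattice without small
elements. -/

namespace Pool.Agent.ZB

namespace Box

variable {D : Type} [Fintype D] [DecidableEq D]

/-- a common denominator -/
theorem exists_denom (r : D → ℚ) : ∃ (n : ℤ) (F : D → ℤ), n ≠ 0 ∧ ∀ i, (F i : ℚ) = n * r i := by
  classical
  refine ⟨∏ i, ((r i).den : ℤ), fun i => (r i).num * ∏ j ∈ Finset.univ.erase i, ((r j).den : ℤ),
    ?_, ?_⟩
  · refine Finset.prod_ne_zero_iff.mpr (fun i _ => ?_)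
    exact_mod_cast (r i).den_nz
  · intro i
    have h1 : (∏ j, ((r j).den : ℤ)) = ((r i).den : ℤ) * ∏ j ∈ Finset.univ.erase i,
        ((r j).den : ℤ) := (Finset.mul_prod_erase Finset.univ _ (Finset.mem_univ i)).symm
    rw [h1]
    push_cast
    have h2 : ((r i).num : ℚ) = (r i).den * r i := by
      rw [mul_comm]
      exact (Rat.mul_den_eq_num (r i)).symm
    rw [h2]
    ring

/-- a vector-valued function killed by the integral relations is killed by the rational ones -/
theorem kill_rat (L : Submodule ℚ (D → ℚ)) {V : Type*} [AddCommGroup V] [Module ℝ V] (g : D → V)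
    (hg : ∀ F : D → ℤ, (fun i => (F i : ℚ)) ∈ L → ∑ i, (F i : ℝ) • g i = 0)
    (r : D → ℚ) (hr : r ∈ L) : ∑ i, (r i : ℝ) • g i = 0 := by
  obtain ⟨n, F, hn, hF⟩ := exists_denom r
  have h1 : (fun i => (F i : ℚ)) = (n : ℚ) • r := by
    ext i
    rw [hF i, Pi.smul_apply, smul_eq_mul]
  have h2 := hg F (by rw [h1]; exact L.smul_mem _ hr)
  have h3 : ∑ i, (F i : ℝ) • g i = (n : ℝ) • ∑ i, (r i : ℝ) • g i := by
    rw [Finset.smul_sum]
    refine Finset.sum_congr rfl (fun i _ => ?_)
    rw [smul_smul]
    congr 1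
    have := hF i
    exact_mod_cast congrArg (fun q : ℚ => (q : ℝ)) this
  rw [h3] at h2
  have h4 : (n : ℝ) ≠ 0 := by exact_mod_cast hn
  exact (smul_eq_zero.mp h2).resolve_left h4

/-- coordinates `s` such that all the others are combinations modulo `L` with coefficients of
absolute value at most `1` -/
theorem exists_coords (L : Submodule ℚ (D → ℚ)) : ∃ (s : Fin (Module.finrank ℚ ((D → ℚ) ⧸ L)) → D)
    (c : D → Fin (Module.finrank ℚ ((D → ℚ) ⧸ L)) → ℚ), Function.Injective s ∧
    (∀ i k, |c i k| ≤ 1) ∧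
    ∀ i, (Pi.single i 1 - ∑ k, c i k • Pi.single (s k) 1 : D → ℚ) ∈ L := by
  classical
  set h := Module.finrank ℚ ((D → ℚ) ⧸ L) with hh
  set b : Module.Basis (Fin h) ℚ ((D → ℚ) ⧸ L) := Module.finBasis ℚ _
  set q : D → Fin h → ℚ := fun i => b.equivFun (L.mkQ (Pi.single i 1)) with hq
  set M : (Fin h → D) → Matrix (Fin h) (Fin h) ℚ := fun s => Matrix.of (fun r k => q (s k) r)
    with hM
  -- a non-vanishing minor
  have hspan : Submodule.span ℚ (Set.range q) = ⊤ := by
    rw [eq_top_iff]
    intro v _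
    obtain ⟨w, hw⟩ := L.mkQ_surjective (b.equivFun.symm v)
    have h1 : v = ∑ i, w i • q i := by
      have h2 : v = b.equivFun (L.mkQ w) := by rw [hw, LinearEquiv.apply_symm_apply]
      rw [h2]
      have h3 : w = ∑ i, w i • (Pi.single i 1 : D → ℚ) := by
        ext j
        simp [Finset.sum_apply, Pi.single_apply]
      conv_lhs => rw [h3]
      rw [map_sum, map_sum]
      refine Finset.sum_congr rfl (fun i _ => ?_)
      rw [map_smul, map_smul]
    rw [h1]
    exact Submodule.sum_mem _ (fun i _ => Submodule.smul_mem _ _ (Submodule.subset_span ⟨i, rfl⟩))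
  have hex : ∃ s : Fin h → D, (M s).det ≠ 0 := by
    obtain ⟨κ, a, ha, hs, hli⟩ := exists_linearIndependent' ℚ q
    rw [hspan] at hs
    have hbas : Module.Basis κ ℚ (Fin h → ℚ) := Module.Basis.mk hli (by rw [hs])
    have hfin : Fintype κ := Module.Basis.fintypeIndexOfRankLtAleph0 hbas (by
      exact Module.rank_lt_aleph0 ℚ (Fin h → ℚ))
    have hcard : Fintype.card κ = h := by
      have h1 := Module.finrank_eq_card_basis hbas
      rw [Module.finrank_fin_fun] at h1
      exact h1.symm
    set e : Fin h ≃ κ := (Fintype.equivFinOfCardEq hcard).symm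
    refine ⟨fun k => a (e k), ?_⟩
    have hli2 : LinearIndependent ℚ (fun k => q (a (e k))) := hli.comp e e.injective
    have h2 : IsUnit (Matrix.transpose (M (fun k => a (e k)))) := by
      rw [← Matrix.linearIndependent_rows_iff_isUnit]
      exact hli2
    rw [Matrix.isUnit_transpose, Matrix.isUnit_iff_isUnit_det] at h2
    exact h2.ne_zero
  obtain ⟨s, hsmem, hsmax⟩ := Finset.exists_max_image (Finset.univ : Finset (Fin h → D))
    (fun s => |(M s).det|) ⟨hex.choose, Finset.mem_univ _⟩
  have hdet : (M s).det ≠ 0 := by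
    intro h0
    obtain ⟨s', hs'⟩ := hex
    have h1 := hsmax s' (Finset.mem_univ _)
    rw [h0, abs_zero] at h1
    exact hs' (abs_eq_zero.mp (le_antisymm h1 (abs_nonneg _)))
  have hcr : ∀ i k, Matrix.cramer (M s) (q i) k = (M (Function.update s k i)).det := by
    intro i k
    rw [Matrix.cramer_apply]
    congr 1
    ext r l
    rw [Matrix.updateCol_apply]
    simp only [hM, Matrix.of_apply]
    by_cases hl : l = k
    · subst hl
      rw [if_pos rfl, Function.update_self]
    · rw [if_neg hl, Function.update_of_ne hl]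
  refine ⟨s, fun i k => Matrix.cramer (M s) (q i) k / (M s).det, ?_, ?_, ?_⟩
  · intro k l hkl
    by_contra hne
    apply hdet
    refine Matrix.det_zero_of_column_eq hne (fun r => ?_)
    simp only [hM, Matrix.of_apply]
    rw [hkl]
  · intro i k
    change |Matrix.cramer (M s) (q i) k / (M s).det| ≤ 1
    rw [hcr, abs_div, div_le_one (abs_pos.mpr hdet)]
    exact hsmax _ (Finset.mem_univ _)
  · intro i
    rw [← Submodule.Quotient.mk_eq_zero, ← Submodule.mkQ_apply]
    apply b.equivFun.injective
    rw [map_zero, map_sub, map_sub, map_sum, map_sum]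
    have h1 := Matrix.mulVec_cramer (M s) (q i)
    have h2 : q i = ∑ k, (Matrix.cramer (M s) (q i) k / (M s).det) • q (s k) := by
      ext r
      have h3 := congrFun h1 r
      rw [Matrix.mulVec, dotProduct, Pi.smul_apply, smul_eq_mul] at h3
      rw [Finset.sum_apply]
      have h4 : (M s).det * q i r = (M s).det * ∑ k, ((Matrix.cramer (M s) (q i) k /
          (M s).det) • q (s k)) r := by
        rw [← h3, Finset.mul_sum]
        refine Finset.sum_congr rfl (fun k _ => ?_)
        rw [Pi.smul_apply, smul_eq_mul]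
        have h5 : M s r k = q (s k) r := rfl
        rw [h5, ← mul_assoc, mul_div_cancel₀ _ hdet, mul_comm]
      exact mul_left_cancel₀ hdet h4
    rw [sub_eq_zero]
    refine h2.trans (Finset.sum_congr rfl (fun k _ => ?_))
    rw [map_smul, map_smul]

end Box

/-- **Box principle**: if the rational relations `L` contain no non-zero integral vector of
absolute value at most `ρ` and the box is large, there is an integral vector `F` outside `L` which
is congruent to a real vector of absolute value at most `δ` modulo the relations -/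
theorem box {D : Type} [Fintype D] (L : Submodule ℚ (D → ℚ)) (H : ℕ)
    (hH : Fintype.card D ≤ Module.finrank ℚ L + H) (ρ : ℕ) (δ : ℝ) (hδ : 0 < δ)
    (hsmall : ∀ F : D → ℤ, (fun i => (F i : ℚ)) ∈ L → (∀ i, |F i| ≤ ρ) → F = 0)
    (hcount : (2 * (Fintype.card D) * ρ / δ + 3) ^ H < ((ρ : ℝ) + 1) ^ (Fintype.card D)) :
    ∃ F : D → ℤ, (∀ i, |F i| ≤ ρ) ∧ (fun i => (F i : ℚ)) ∉ L ∧ ∃ Ψ : D → ℝ, (∀ i, |Ψ i| ≤ δ) ∧
      ∀ (V : Type) [AddCommGroup V] [Module ℝ V] (g : D → V),
        (∀ F' : D → ℤ, (fun i => (F' i : ℚ)) ∈ L → ∑ i, (F' i : ℝ) • g i = 0) →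
          ∑ i, ((F i : ℝ) - Ψ i) • g i = 0 := by
  classical
  obtain ⟨h, hh, s, c, hs, hc, hcL⟩ : ∃ (h : ℕ) (_ : h = Module.finrank ℚ ((D → ℚ) ⧸ L))
      (s : Fin h → D) (c : D → Fin h → ℚ), Function.Injective s ∧ (∀ i k, |c i k| ≤ 1) ∧
      ∀ i, (Pi.single i 1 - ∑ k, c i k • Pi.single (s k) 1 : D → ℚ) ∈ L :=
    ⟨_, rfl, Box.exists_coords L⟩
  have hhH : h ≤ H := by
    have h1 := Submodule.finrank_quotient_add_finrank L
    rw [Module.finrank_pi] at h1
    omega
  -- the projection
  set π : (D → ℤ) → Fin h → ℚ := fun F k => ∑ i, (F i : ℚ) * c i k with hπ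
  set box : Finset (D → ℤ) := Fintype.piFinset (fun _ => Finset.Icc (0 : ℤ) ρ) with hbox
  have hcardbox : (box.card : ℝ) = ((ρ : ℝ) + 1) ^ (Fintype.card D) := by
    rw [hbox, Fintype.card_piFinset, Finset.prod_const, Int.card_Icc, Finset.card_univ]
    push_cast
    congr 1
    simp
  set B : ℤ := ⌈(Fintype.card D) * ρ / δ⌉ with hB
  set cells : Finset (Fin h → ℤ) := Fintype.piFinset (fun _ => Finset.Icc (-B) B) with hcells
  have hBnn : 0 ≤ B := by
    rw [hB]
    exact Int.ceil_nonneg (by positivity)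
  have hcardcells : (cells.card : ℝ) ≤ (2 * (Fintype.card D) * ρ / δ + 3) ^ H := by
    rw [hcells, Fintype.card_piFinset, Finset.prod_const, Int.card_Icc, Finset.card_univ,
      Fintype.card_fin]
    push_cast
    have h1 : (((B + 1 - -B).toNat : ℕ) : ℝ) = 2 * (B : ℝ) + 1 := by
      have h2 : 0 ≤ B + 1 - -B := by omega
      have h3 : (((B + 1 - -B).toNat : ℤ)) = B + 1 - -B := Int.toNat_of_nonneg h2
      have h4 : (((B + 1 - -B).toNat : ℕ) : ℝ) = (((B + 1 - -B) : ℤ) : ℝ) := by
        exact_mod_cast congrArg (fun z : ℤ => (z : ℝ)) h3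
      rw [h4]
      push_cast
      ring
    have h5 : (B : ℝ) < (Fintype.card D) * ρ / δ + 1 := by
      rw [hB]
      exact Int.ceil_lt_add_one _
    have h6 : 2 * (B : ℝ) + 1 ≤ 2 * (Fintype.card D) * ρ / δ + 3 := by
      have h7 : 2 * (Fintype.card D : ℝ) * ρ / δ = 2 * ((Fintype.card D) * ρ / δ) := by ring
      rw [h7]
      linarith
    rw [h1]
    have h8 : (1 : ℝ) ≤ 2 * (Fintype.card D) * ρ / δ + 3 := by
      have : 0 ≤ 2 * (Fintype.card D : ℝ) * ρ / δ := by positivity
      linarith
    have h9 : (0 : ℝ) ≤ 2 * (B : ℝ) + 1 := by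
      have : (0 : ℝ) ≤ B := by exact_mod_cast hBnn
      linarith
    calc (2 * (B : ℝ) + 1) ^ h ≤ (2 * (Fintype.card D) * ρ / δ + 3) ^ h :=
          pow_le_pow_left₀ h9 h6 h
      _ ≤ (2 * (Fintype.card D) * ρ / δ + 3) ^ H := pow_le_pow_right₀ h8 hhH
  have hlt : cells.card < box.card := by
    have h1 : (cells.card : ℝ) < box.card := by
      rw [hcardbox]
      exact lt_of_le_of_lt hcardcells hcount
    exact_mod_cast h1
  set cell : (D → ℤ) → Fin h → ℤ := fun F k => ⌊(π F k : ℝ) / δ⌋ with hcell
  have hmaps : ∀ F ∈ box, cell F ∈ cells := by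
    intro F hF
    rw [hbox, Fintype.mem_piFinset] at hF
    rw [hcells, Fintype.mem_piFinset]
    intro k
    have h1 : |(π F k : ℝ)| ≤ (Fintype.card D) * ρ := by
      have h2 : |π F k| ≤ ∑ i : D, (ρ : ℚ) := by
        refine (Finset.abs_sum_le_sum_abs _ _).trans (Finset.sum_le_sum (fun i _ => ?_))
        rw [abs_mul]
        have h3 := hF i
        rw [Finset.mem_Icc] at h3
        have h4 : |(F i : ℚ)| ≤ ρ := by
          rw [abs_of_nonneg (by exact_mod_cast h3.1)]
          exact_mod_cast h3.2
        calc |(F i : ℚ)| * |c i k| ≤ ρ * 1 :=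
              mul_le_mul h4 (hc i k) (abs_nonneg _) (by positivity)
          _ = ρ := mul_one _
      rw [Finset.sum_const, Finset.card_univ, nsmul_eq_mul] at h2
      exact_mod_cast h2
    rw [abs_le] at h1
    have h2 : (Fintype.card D) * ρ / δ ≤ (B : ℝ) := by
      rw [hB]
      exact Int.le_ceil _
    rw [Finset.mem_Icc]
    constructor
    · rw [Int.le_floor]
      push_cast
      have h3 : -((Fintype.card D) * ρ / δ) ≤ (π F k : ℝ) / δ := by
        rw [← neg_div]
        exact div_le_div_of_nonneg_right h1.1 hδ.le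
      linarith
    · have h3 : (π F k : ℝ) / δ ≤ (B : ℝ) :=
        (div_le_div_of_nonneg_right h1.2 hδ.le).trans h2
      have h4 : (⌊(π F k : ℝ) / δ⌋ : ℝ) ≤ (B : ℝ) := (Int.floor_le _).trans h3
      exact_mod_cast h4
  obtain ⟨F₁, h₁, F₂, h₂, hne, heq⟩ :=
    Finset.exists_ne_map_eq_of_card_lt_of_maps_to hlt hmaps
  have hFb : ∀ i, |(F₁ - F₂) i| ≤ ρ := by
    intro i
    rw [hbox, Fintype.mem_piFinset] at h₁ h₂
    have h3 := h₁ i
    have h4 := h₂ i
    rw [Finset.mem_Icc] at h3 h4
    rw [Pi.sub_apply, abs_le]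
    omega
  have hπs : ∀ k, π (F₁ - F₂) k = π F₁ k - π F₂ k := by
    intro k
    simp only [hπ, Pi.sub_apply]
    rw [← Finset.sum_sub_distrib]
    refine Finset.sum_congr rfl (fun i _ => ?_)
    push_cast
    ring
  have hπb : ∀ k, |(π (F₁ - F₂) k : ℝ)| ≤ δ := by
    intro k
    have h3 : ⌊(π F₁ k : ℝ) / δ⌋ = ⌊(π F₂ k : ℝ) / δ⌋ := congrFun heq k
    have h4 := Int.abs_sub_lt_one_of_floor_eq_floor h3
    rw [← sub_div, abs_div, abs_of_pos hδ, div_lt_one hδ] at h4
    rw [hπs]
    push_cast
    exact h4.le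
  refine ⟨F₁ - F₂, hFb, ?_, ?_⟩
  · intro hL
    exact hne (sub_eq_zero.mp (hsmall _ hL hFb))
  · refine ⟨fun i => ∑ k, if s k = i then (π (F₁ - F₂) k : ℝ) else 0, ?_, ?_⟩
    · intro i
      change |∑ k, if s k = i then (π (F₁ - F₂) k : ℝ) else 0| ≤ δ
      by_cases hi : ∃ k, s k = i
      · obtain ⟨k, rfl⟩ := hi
        rw [Finset.sum_eq_single k]
        · rw [if_pos rfl]
          exact hπb k
        · intro l _ hl
          rw [if_neg]
          exact fun h => hl (hs h)
        · intro h
          exact absurd (Finset.mem_univ _) h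
      · push Not at hi
        rw [Finset.sum_eq_zero (fun k _ => if_neg (hi k)), abs_zero]
        exact hδ.le
    · intro V _ _ g hg
      set F : D → ℤ := F₁ - F₂ with hF
      have h3 : ∀ i, g i = ∑ k, (c i k : ℝ) • g (s k) := by
        intro i
        have h4 := Box.kill_rat L g hg _ (hcL i)
        have h5 : ∑ j, (((Pi.single i 1 - ∑ k, c i k • Pi.single (s k) 1 : D → ℚ) j : ℚ) : ℝ) •
            g j = g i - ∑ k, (c i k : ℝ) • g (s k) := by
          have h6 : ∀ j, (((Pi.single i 1 - ∑ k, c i k • Pi.single (s k) 1 : D → ℚ) j : ℚ) : ℝ) •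
              g j = (if j = i then g j else 0) - ∑ k, (if j = s k then (c i k : ℝ) • g j else 0) := by
            intro j
            rw [Pi.sub_apply, Finset.sum_apply]
            push_cast
            rw [sub_smul, Finset.sum_smul]
            congr 1
            · rw [Pi.single_apply]
              split_ifs <;> simp
            · refine Finset.sum_congr rfl (fun k _ => ?_)
              rw [Pi.smul_apply, Pi.single_apply, smul_eq_mul]
              split_ifs <;> simp
          rw [Finset.sum_congr rfl (fun j _ => h6 j), Finset.sum_sub_distrib, Finset.sum_comm]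
          simp
        rw [h5] at h4
        exact sub_eq_zero.mp h4
      have h7 : ∑ i, (F i : ℝ) • g i = ∑ k, (π F k : ℝ) • g (s k) := by
        calc ∑ i, (F i : ℝ) • g i = ∑ i, ∑ k, ((F i : ℝ) * (c i k : ℝ)) • g (s k) := by
              refine Finset.sum_congr rfl (fun i _ => ?_)
              conv_lhs => rw [h3 i]
              rw [Finset.smul_sum]
              refine Finset.sum_congr rfl (fun k _ => ?_)
              rw [smul_smul]
          _ = ∑ k, ∑ i, ((F i : ℝ) * (c i k : ℝ)) • g (s k) := Finset.sum_comm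
          _ = ∑ k, (π F k : ℝ) • g (s k) := by
              refine Finset.sum_congr rfl (fun k _ => ?_)
              rw [← Finset.sum_smul]
              congr 1
              simp only [hπ]
              push_cast
              rfl
      have h8 : ∑ i, (∑ k, if s k = i then (π F k : ℝ) else 0) • g i =
          ∑ k, (π F k : ℝ) • g (s k) := by
        calc ∑ i, (∑ k, if s k = i then (π F k : ℝ) else 0) • g i
            = ∑ i, ∑ k, (if s k = i then (π F k : ℝ) • g i else 0) := by
              refine Finset.sum_congr rfl (fun i _ => ?_)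
              rw [Finset.sum_smul]
              refine Finset.sum_congr rfl (fun k _ => ?_)
              split_ifs <;> simp
          _ = ∑ k, ∑ i, (if s k = i then (π F k : ℝ) • g i else 0) := Finset.sum_comm
          _ = ∑ k, (π F k : ℝ) • g (s k) := by
              refine Finset.sum_congr rfl (fun k _ => ?_)
              rw [Finset.sum_ite_eq Finset.univ (s k), if_pos (Finset.mem_univ _)]
      calc ∑ i, ((F i : ℝ) - ∑ k, if s k = i then (π F k : ℝ) else 0) • g i
          = ∑ i, (F i : ℝ) • g i - ∑ i, (∑ k, if s k = i then (π F k : ℝ) else 0) • g i := by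
            rw [← Finset.sum_sub_distrib]
            refine Finset.sum_congr rfl (fun i _ => ?_)
            rw [sub_smul]
        _ = 0 := by rw [h7, h8, sub_self]

/-- the rank of the relations is bounded below by the number of the equations -/
theorem finrank_ge {D E : Type} [Fintype D] [Fintype E] (L : Submodule ℚ (D → ℚ))
    (c : D → E → ℚ) (h : ∀ F : D → ℚ, (∀ e, ∑ a, F a * c a e = 0) → F ∈ L) :
    Fintype.card D ≤ Module.finrank ℚ L + Fintype.card E := by
  classical
  set f : (D → ℚ) →ₗ[ℚ] (E → ℚ) :=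
    { toFun := fun F e => ∑ a, F a * c a e
      map_add' := by
        intro F G
        ext e
        simp [add_mul, Finset.sum_add_distrib]
      map_smul' := by
        intro r F
        ext e
        simp [Finset.mul_sum, mul_assoc] } with hf
  have h1 := LinearMap.finrank_range_add_finrank_ker f
  rw [Module.finrank_pi] at h1
  have h2 : Module.finrank ℚ (LinearMap.range f) ≤ Fintype.card E := by
    refine (Submodule.finrank_le _).trans ?_
    rw [Module.finrank_pi]
  have h3 : LinearMap.ker f ≤ L := by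
    intro F hF
    exact h F (fun e => congrFun (LinearMap.mem_ker.mp hF) e)
  have h4 := Submodule.finrank_mono h3
  omega

end Pool.Agent.ZB
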