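import Mathlib

/-! Project ZB (MP_c95b3b_ag), step (5.6): polynomials with integral coefficients which have many
large roots over the grid of the roots of unity have large coefficients. -/

namespace Pool.Agent.ZB

namespace NoSmall

open Finset

/-- the Landau inequality with many large roots -/
theorem lead_lt (P : Polynomial ℂ) (s : Finset ℂ) (m : ℕ) (hm : m ≤ s.card) (Λ B : ℝ)
    (hΛ : 0 ≤ Λ) (hs : ∀ y ∈ s, Real.exp Λ ≤ ‖y‖ ∧ P.eval y = 0)
    (hB : ∑ i ∈ P.support, ‖P.coeff i‖ ≤ B) (hP : P ≠ 0) :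
    ‖P.leadingCoeff‖ * Real.exp (Λ * m) ≤ B := by
  classical
  have h1 := Polynomial.mahlerMeasure_eq_leadingCoeff_mul_prod_roots P
  have h2 : P.mahlerMeasure ≤ B := (Polynomial.mahlerMeasure_le_sum_norm_coeff P).trans hB
  refine le_trans ?_ h2
  rw [h1]
  refine mul_le_mul_of_nonneg_left ?_ (norm_nonneg _)
  have h3 : s.val ≤ P.roots := by
    rw [Multiset.le_iff_subset s.nodup]
    intro y hy
    rw [Polynomial.mem_roots hP]
    exact (hs y hy).2
  obtain ⟨t, ht⟩ := Multiset.le_iff_exists_add.mp h3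
  rw [ht, Multiset.map_add, Multiset.prod_add]
  have h4 : 1 ≤ (t.map (fun a => max 1 ‖a‖)).prod := by
    refine Multiset.one_le_prod (fun x hx => ?_)
    obtain ⟨a, -, rfl⟩ := Multiset.mem_map.mp hx
    exact le_max_left _ _
  have h5 : Real.exp (Λ * m) ≤ (s.val.map (fun a => max 1 ‖a‖)).prod := by
    change Real.exp (Λ * m) ≤ ∏ a ∈ s, max 1 ‖a‖
    calc Real.exp (Λ * m) ≤ Real.exp (Λ * s.card) := by
          apply Real.exp_le_exp.mpr
          exact mul_le_mul_of_nonneg_left (by exact_mod_cast hm) hΛ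
      _ = ∏ a ∈ s, Real.exp Λ := by
          rw [Finset.prod_const, ← Real.exp_nat_mul, mul_comm]
      _ ≤ ∏ a ∈ s, max 1 ‖a‖ := by
          refine Finset.prod_le_prod (fun a _ => (Real.exp_pos _).le) (fun a ha => ?_)
          exact (hs a ha).1.trans (le_max_right _ _)
  calc Real.exp (Λ * m) ≤ (s.val.map (fun a => max 1 ‖a‖)).prod * 1 := by rw [mul_one]; exact h5
    _ ≤ _ := mul_le_mul_of_nonneg_left h4 ((Real.exp_pos _).le.trans h5)

/-- sums of powers of roots of unity -/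
theorem sum_pow (N : ℕ) (ω : ℂ) (hω : IsPrimitiveRoot ω (N + 1)) (a b : Fin (N + 1)) :
    ∑ j : Fin (N + 1), (ω ^ (j : ℕ)) ^ (a : ℕ) * (ω ^ (j : ℕ)) ^ (N + 1 - (b : ℕ)) =
      if a = b then ((N + 1 : ℕ) : ℂ) else 0 := by
  have h0 : ∀ j : Fin (N + 1), (ω ^ (j : ℕ)) ^ (a : ℕ) * (ω ^ (j : ℕ)) ^ (N + 1 - (b : ℕ)) =
      (ω ^ ((a : ℕ) + (N + 1 - (b : ℕ)))) ^ (j : ℕ) := by
    intro j
    rw [← pow_add, ← pow_mul, ← pow_mul, mul_comm]
  rw [Finset.sum_congr rfl (fun j _ => h0 j)]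
  by_cases hab : a = b
  · subst hab
    rw [if_pos rfl]
    have h1 : (a : ℕ) + (N + 1 - (a : ℕ)) = N + 1 := by
      have := a.2
      omega
    rw [h1, hω.pow_eq_one]
    simp
  · rw [if_neg hab, Fin.sum_univ_eq_sum_range (fun j => (ω ^ ((a : ℕ) + (N + 1 - (b : ℕ)))) ^ j)]
    set x := ω ^ ((a : ℕ) + (N + 1 - (b : ℕ))) with hx
    have hx1 : x ≠ 1 := by
      intro h
      rw [hx, hω.pow_eq_one_iff_dvd] at h
      obtain ⟨k, hk⟩ := h
      have ha := a.2
      have hb := b.2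
      have hne : (a : ℕ) ≠ (b : ℕ) := fun h => hab (Fin.ext h)
      have hk1 : k = 1 := by
        have h1 : 0 < (N + 1) * k := by omega
        have h2 : (N + 1) * k < (N + 1) * 2 := by omega
        have h3 : 0 < k := Nat.pos_of_mul_pos_left h1 |> fun h => by
          rcases Nat.eq_zero_or_pos k with h0 | h0
          · subst h0
            omega
          · exact h0
        have h4 : k < 2 := lt_of_mul_lt_mul_left h2 (Nat.zero_le _)
        omega
      subst hk1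
      omega
    have hxN : x ^ (N + 1) = 1 := by
      rw [hx, ← pow_mul, mul_comm, pow_mul, hω.pow_eq_one, one_pow]
    rw [geom_sum_eq hx1, hxN, sub_self, zero_div]

/-- an integral polynomial with values of absolute value `< 1` on the grid is zero -/
theorem grid {d : ℕ} (N : ℕ) (c : (Fin d → Fin (N + 1)) → ℤ)
    (h : ∀ ζ : Fin d → ℂ, (∀ i, ζ i ^ (N + 1) = 1) →
      ‖∑ β, (c β : ℂ) * ∏ i, ζ i ^ (β i : ℕ)‖ < 1) : c = 0 := by
  classical
  ext β
  set ω : ℂ := Complex.exp (2 * Real.pi * Complex.I / ((N + 1 : ℕ) : ℂ)) with hωdef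
  have hω : IsPrimitiveRoot ω (N + 1) := Complex.isPrimitiveRoot_exp (N + 1) (Nat.succ_ne_zero N)
  set ζ : (Fin d → Fin (N + 1)) → Fin d → ℂ := fun k i => ω ^ (k i : ℕ) with hζ
  have hζ1 : ∀ k i, ζ k i ^ (N + 1) = 1 := by
    intro k i
    simp only [hζ]
    rw [← pow_mul, mul_comm, pow_mul, hω.pow_eq_one, one_pow]
  have hζn : ∀ k i, ‖ζ k i‖ = 1 := fun k i => Complex.norm_eq_one_of_pow_eq_one (hζ1 k i)
    (Nat.succ_ne_zero N)
  have h1 : ∑ k : Fin d → Fin (N + 1), (∑ γ, (c γ : ℂ) * ∏ i, ζ k i ^ (γ i : ℕ)) *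
      ∏ i, ζ k i ^ (N + 1 - (β i : ℕ)) = ((N + 1 : ℕ) : ℂ) ^ d * c β := by
    have h2 : ∀ γ : Fin d → Fin (N + 1), ∑ k : Fin d → Fin (N + 1),
        ((∏ i, ζ k i ^ (γ i : ℕ)) * ∏ i, ζ k i ^ (N + 1 - (β i : ℕ))) =
        if γ = β then ((N + 1 : ℕ) : ℂ) ^ d else 0 := by
      intro γ
      have h3 : ∀ k : Fin d → Fin (N + 1), (∏ i, ζ k i ^ (γ i : ℕ)) *
          ∏ i, ζ k i ^ (N + 1 - (β i : ℕ)) =
          ∏ i, ((ω ^ ((k i : Fin (N + 1)) : ℕ)) ^ (γ i : ℕ) *
            (ω ^ ((k i : Fin (N + 1)) : ℕ)) ^ (N + 1 - (β i : ℕ))) := by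
        intro k
        rw [← Finset.prod_mul_distrib]
      rw [Finset.sum_congr rfl (fun k _ => h3 k)]
      have h4 := Fintype.prod_sum (fun (i : Fin d) (j : Fin (N + 1)) =>
        (ω ^ (j : ℕ)) ^ (γ i : ℕ) * (ω ^ (j : ℕ)) ^ (N + 1 - (β i : ℕ)))
      rw [← h4, Finset.prod_congr rfl (fun i _ => sum_pow N ω hω (γ i) (β i))]
      by_cases hγ : γ = β
      · subst hγ
        simp
      · rw [if_neg hγ]
        obtain ⟨i, hi⟩ := Function.ne_iff.mp hγ
        exact Finset.prod_eq_zero (Finset.mem_univ i) (if_neg hi)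
    calc ∑ k : Fin d → Fin (N + 1), (∑ γ, (c γ : ℂ) * ∏ i, ζ k i ^ (γ i : ℕ)) *
          ∏ i, ζ k i ^ (N + 1 - (β i : ℕ))
        = ∑ γ, (c γ : ℂ) * ∑ k : Fin d → Fin (N + 1),
            ((∏ i, ζ k i ^ (γ i : ℕ)) * ∏ i, ζ k i ^ (N + 1 - (β i : ℕ))) := by
          rw [Finset.sum_congr rfl (fun k _ => Finset.sum_mul _ _ _), Finset.sum_comm]
          refine Finset.sum_congr rfl (fun γ _ => ?_)
          rw [Finset.mul_sum]
          refine Finset.sum_congr rfl (fun k _ => ?_)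
          rw [mul_assoc]
      _ = ((N + 1 : ℕ) : ℂ) ^ d * c β := by
          rw [Finset.sum_congr rfl (fun γ _ => by rw [h2 γ])]
          rw [Finset.sum_eq_single β]
          · rw [if_pos rfl, mul_comm]
          · intro γ _ hγ
            rw [if_neg hγ, mul_zero]
          · intro hβ
            exact absurd (Finset.mem_univ _) hβ
  have h5 : ‖((N + 1 : ℕ) : ℂ) ^ d * c β‖ < ((N + 1 : ℕ) : ℝ) ^ d := by
    rw [← h1]
    refine lt_of_le_of_lt (norm_sum_le _ _) ?_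
    have h6 : ∀ k ∈ (Finset.univ : Finset (Fin d → Fin (N + 1))),
        ‖(∑ γ, (c γ : ℂ) * ∏ i, ζ k i ^ (γ i : ℕ)) * ∏ i, ζ k i ^ (N + 1 - (β i : ℕ))‖ < 1 := by
      intro k _
      rw [norm_mul, norm_prod]
      have h7 : ∏ i, ‖ζ k i ^ (N + 1 - (β i : ℕ))‖ = 1 :=
        Finset.prod_eq_one (fun i _ => by rw [norm_pow, hζn, one_pow])
      rw [h7, mul_one]
      exact h (ζ k) (hζ1 k)
    refine lt_of_lt_of_le (Finset.sum_lt_sum_of_nonempty ⟨fun _ => 0, Finset.mem_univ _⟩ h6) ?_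
    rw [Finset.sum_const, nsmul_eq_mul, mul_one, Finset.card_univ, Fintype.card_fun,
      Fintype.card_fin, Fintype.card_fin]
    push_cast
    exact le_rfl
  rw [norm_mul, norm_pow, Complex.norm_natCast] at h5
  have h6 : (0 : ℝ) < ((N + 1 : ℕ) : ℝ) ^ d := by positivity
  have h7 : ‖(c β : ℂ)‖ < 1 := by
    by_contra hc
    push Not at hc
    have := mul_le_mul_of_nonneg_left hc h6.le
    linarith
  rw [Complex.norm_intCast] at h7
  have h8 : |c β| < 1 := by exact_mod_cast h7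
  have h9 : c β = 0 := Int.abs_lt_one_iff.mp h8
  simpa using h9

end NoSmall

/-- **No small relations** -/
theorem no_small {d : ℕ} (N m : ℕ) (Λ : ℝ) (hΛ : 0 ≤ Λ)
    (F : Fin (N + 1) → (Fin d → Fin (N + 1)) → ℤ)
    (hF : ∑ e, ∑ β, |(F e β : ℝ)| < Real.exp (Λ * m))
    (hroots : ∀ ζ : Fin d → ℂ, (∀ i, ζ i ^ (N + 1) = 1) →
      ∃ s : Finset ℂ, m ≤ s.card ∧ ∀ y ∈ s, Real.exp Λ ≤ ‖y‖ ∧
        ∑ e, ∑ β, (F e β : ℂ) * (y ^ (e : ℕ) * ∏ i, ζ i ^ (β i : ℕ)) = 0) : F = 0 := by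
  classical
  by_contra hne
  have hex : (Finset.univ.filter (fun e => F e ≠ 0)).Nonempty := by
    obtain ⟨e, he⟩ := Function.ne_iff.mp hne
    exact ⟨e, by rw [Finset.mem_filter]; exact ⟨Finset.mem_univ _, he⟩⟩
  obtain ⟨e₀, he₀, hmax⟩ := Finset.exists_max_image _ (fun e : Fin (N + 1) => (e : ℕ)) hex
  rw [Finset.mem_filter] at he₀
  refine he₀.2 (NoSmall.grid N (F e₀) (fun ζ hζ => ?_))
  have hζn : ∀ i, ‖ζ i‖ = 1 := fun i => Complex.norm_eq_one_of_pow_eq_one (hζ i)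
    (Nat.succ_ne_zero N)
  set a : Fin (N + 1) → ℂ := fun e => ∑ β, (F e β : ℂ) * ∏ i, ζ i ^ (β i : ℕ) with ha
  change ‖a e₀‖ < 1
  by_cases h0 : a e₀ = 0
  · rw [h0, norm_zero]
    exact one_pos
  obtain ⟨s, hsm, hs⟩ := hroots ζ hζ
  set P : Polynomial ℂ := ∑ e : Fin (N + 1), Polynomial.monomial (e : ℕ) (a e) with hP
  have hcoeff : ∀ e : Fin (N + 1), P.coeff e = a e := by
    intro e
    rw [hP, Polynomial.finsetSum_coeff]
    rw [Finset.sum_eq_single e]
    · rw [Polynomial.coeff_monomial_same]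
    · intro e' _ hee
      rw [Polynomial.coeff_monomial_of_ne]
      exact fun h => hee (Fin.ext h.symm) |>.elim
    · intro h
      exact absurd (Finset.mem_univ _) h
  have hbig : ∀ n, N + 1 ≤ n → P.coeff n = 0 := by
    intro n hn
    rw [hP, Polynomial.finsetSum_coeff]
    refine Finset.sum_eq_zero (fun e _ => ?_)
    rw [Polynomial.coeff_monomial_of_ne]
    have := e.2
    omega
  have hzero : ∀ n, (e₀ : ℕ) < n → P.coeff n = 0 := by
    intro n hn
    by_cases hN : N + 1 ≤ n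
    · exact hbig n hN
    · push Not at hN
      have h1 := hcoeff ⟨n, hN⟩
      change P.coeff n = _ at h1
      rw [h1]
      have h2 : F ⟨n, hN⟩ = 0 := by
        by_contra hc
        have h3 := hmax ⟨n, hN⟩ (by rw [Finset.mem_filter]; exact ⟨Finset.mem_univ _, hc⟩)
        change n ≤ _ at h3
        omega
      simp only [ha]
      rw [h2]
      simp
  have hPne : P ≠ 0 := by
    intro h1
    apply h0
    rw [← hcoeff, h1, Polynomial.coeff_zero]
  have hdeg : P.natDegree = e₀ := by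
    refine le_antisymm ?_ ?_
    · rw [Polynomial.natDegree_le_iff_coeff_eq_zero]
      exact hzero
    · apply Polynomial.le_natDegree_of_ne_zero
      rw [hcoeff]
      exact h0
  have hlead : P.leadingCoeff = a e₀ := by
    rw [Polynomial.leadingCoeff, hdeg, hcoeff]
  have heval : ∀ y, P.eval y = ∑ e, ∑ β, (F e β : ℂ) * (y ^ (e : ℕ) * ∏ i, ζ i ^ (β i : ℕ)) := by
    intro y
    rw [hP, Polynomial.eval_finsetSum]
    refine Finset.sum_congr rfl (fun e _ => ?_)
    rw [Polynomial.eval_monomial]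
    simp only [ha]
    rw [Finset.sum_mul]
    refine Finset.sum_congr rfl (fun β _ => ?_)
    ring
  have hnorm : ∑ i ∈ P.support, ‖P.coeff i‖ ≤ ∑ e, ∑ β, |(F e β : ℝ)| := by
    have h1 : ∑ i ∈ P.support, ‖P.coeff i‖ ≤ ∑ i ∈ Finset.range (N + 1), ‖P.coeff i‖ := by
      refine Finset.sum_le_sum_of_subset_of_nonneg (fun i hi => ?_) (fun i _ _ => norm_nonneg _)
      rw [Finset.mem_range]
      by_contra hc
      push Not at hc
      rw [Polynomial.mem_support_iff] at hi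
      exact hi (hbig i hc)
    refine h1.trans ?_
    rw [← Fin.sum_univ_eq_sum_range (fun i => ‖P.coeff i‖)]
    refine Finset.sum_le_sum (fun e _ => ?_)
    rw [hcoeff]
    simp only [ha]
    refine (norm_sum_le _ _).trans (Finset.sum_le_sum (fun β _ => ?_))
    rw [norm_mul, norm_prod, Complex.norm_intCast]
    have h2 : ∏ i, ‖ζ i ^ (β i : ℕ)‖ = 1 :=
      Finset.prod_eq_one (fun i _ => by rw [norm_pow, hζn, one_pow])
    rw [h2, mul_one]
  have h3 := NoSmall.lead_lt P s m hsm Λ _ hΛ (fun y hy => ⟨(hs y hy).1, by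
    rw [heval]; exact (hs y hy).2⟩) hnorm hPne
  rw [hlead] at h3
  by_contra hc
  push Not at hc
  have h4 := mul_le_mul_of_nonneg_right hc (Real.exp_pos (Λ * m)).le
  linarith

end Pool.Agent.ZB
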