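import Mathlib

/-! Project ZB (MP_c95b3b_ag), step (5.6): an integral affine form which separates finitely many
pairs of points. -/

namespace Pool.Agent.ZB

open Polynomial in
/-- the affine form `t0 + ∑ t l * x l` -/
theorem exists_tau {ι : Type} [Fintype ι] (R : ℕ) (t0 : ℕ) (u u' : ι → ℂ) (x x' : ι → Fin R → ℂ)
    (h : ∀ i, ¬ ((t0 : ℂ) * u i = t0 * u' i ∧ ∀ l, u i * x i l = u' i * x' i l)) :
    ∃ t : Fin R → ℕ, (∀ l, t l ≤ (R * Fintype.card ι + 1) ^ R) ∧
      ∀ i, u i * ((t0 : ℂ) + ∑ l, (t l : ℂ) * x i l) ≠ u' i * ((t0 : ℂ) + ∑ l, (t l : ℂ) * x' i l) := by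
  classical
  set p : ι → ℂ[X] := fun i => C ((t0 : ℂ) * u i - t0 * u' i) +
    ∑ l : Fin R, C (u i * x i l - u' i * x' i l) * X ^ ((l : ℕ) + 1) with hp
  have hcoeff0 : ∀ i, (p i).coeff 0 = (t0 : ℂ) * u i - t0 * u' i := by
    intro i
    simp only [hp, coeff_add, coeff_C_zero, finsetSum_coeff]
    rw [Finset.sum_eq_zero, add_zero]
    intro l _
    rw [coeff_C_mul, coeff_X_pow, if_neg (by omega), mul_zero]
  have hcoeff1 : ∀ i (l : Fin R), (p i).coeff ((l : ℕ) + 1) = u i * x i l - u' i * x' i l := by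
    intro i l
    simp only [hp, coeff_add, finsetSum_coeff]
    rw [coeff_C_succ, zero_add, Finset.sum_eq_single l]
    · rw [coeff_C_mul, coeff_X_pow_self, mul_one]
    · intro k _ hk
      rw [coeff_C_mul, coeff_X_pow, if_neg, mul_zero]
      intro hkl
      exact hk (Fin.ext (by omega))
    · intro hl
      exact absurd (Finset.mem_univ _) hl
  have hne : ∀ i, p i ≠ 0 := by
    intro i hi
    apply h i
    constructor
    · have h1 := hcoeff0 i
      rw [hi, coeff_zero] at h1
      exact (sub_eq_zero.mp h1.symm)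
    · intro l
      have h1 := hcoeff1 i l
      rw [hi, coeff_zero] at h1
      exact (sub_eq_zero.mp h1.symm)
  have hdeg : ∀ i, (p i).natDegree ≤ R := by
    intro i
    simp only [hp]
    refine (natDegree_add_le _ _).trans (max_le ?_ ?_)
    · rw [natDegree_C]
      exact Nat.zero_le _
    · refine natDegree_sum_le_of_forall_le _ _ (fun l _ => ?_)
      refine (natDegree_C_mul_X_pow_le _ _).trans ?_
      have := l.2
      omega
  have hprod : ∏ i, p i ≠ 0 := Finset.prod_ne_zero_iff.mpr (fun i _ => hne i)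
  have hdegp : (∏ i, p i).natDegree ≤ R * Fintype.card ι := by
    refine (natDegree_prod_le _ _).trans ?_
    refine (Finset.sum_le_card_nsmul _ _ R (fun i _ => hdeg i)).trans ?_
    rw [smul_eq_mul, Finset.card_univ, mul_comm]
  obtain ⟨s, hs, hs0⟩ : ∃ s ≤ R * Fintype.card ι, (∏ i, p i).eval (s : ℂ) ≠ 0 := by
    by_contra hc
    push Not at hc
    have h1 : ((Finset.range (R * Fintype.card ι + 1)).image (fun s : ℕ => (s : ℂ))) ⊆
        (∏ i, p i).roots.toFinset := by
      intro z hz
      rw [Finset.mem_image] at hz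
      obtain ⟨s, hs, rfl⟩ := hz
      rw [Finset.mem_range] at hs
      rw [Multiset.mem_toFinset, mem_roots hprod]
      exact hc s (by omega)
    have h2 := Finset.card_le_card h1
    rw [Finset.card_image_of_injective _ Nat.cast_injective, Finset.card_range] at h2
    have h3 := Multiset.toFinset_card_le (∏ i, p i).roots
    have h4 := card_roots' (∏ i, p i)
    omega
  rw [eval_prod, Finset.prod_ne_zero_iff] at hs0
  refine ⟨fun l => s ^ ((l : ℕ) + 1), ?_, ?_⟩
  · intro l
    have h1 : (l : ℕ) + 1 ≤ R := l.2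
    calc s ^ ((l : ℕ) + 1) ≤ (R * Fintype.card ι + 1) ^ ((l : ℕ) + 1) :=
          Nat.pow_le_pow_left (by omega) _
      _ ≤ (R * Fintype.card ι + 1) ^ R := Nat.pow_le_pow_right (by omega) h1
  · intro i heq
    apply hs0 i (Finset.mem_univ _)
    simp only [hp]
    rw [eval_add, eval_C, eval_finsetSum]
    have h1 : ∀ l : Fin R, (C (u i * x i l - u' i * x' i l) * X ^ ((l : ℕ) + 1)).eval (s : ℂ) =
        u i * ((s : ℂ) ^ ((l : ℕ) + 1) * x i l) - u' i * ((s : ℂ) ^ ((l : ℕ) + 1) * x' i l) := by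
      intro l
      rw [eval_mul, eval_C, eval_pow, eval_X]
      ring
    rw [Finset.sum_congr rfl (fun l _ => h1 l), Finset.sum_sub_distrib, ← Finset.mul_sum,
      ← Finset.mul_sum]
    push_cast at heq
    linear_combination heq

end Pool.Agent.ZB
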